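import Pool.Agent.Run7.h409.Nz.Real

/-!
# Blocks of digits of square roots: a bound which does not depend on the base

No hypothesis is assumed.

* For every positive integer `d` which is not a square there is one `n₀` such that for all
  `n ≥ n₀` and all block lengths `k ≥ 1` more than `1.52 √n` of the first `n` consecutive blocks
  of `k` binary digits of `√d` contain a one.
* In every base `b ≥ 2` more than `1.52 √(gcd(b, 2) n / 2)` of the first `n` digits of `√d` are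
  different from `0`, for all `n ≥ n₀` with the same `n₀` for all bases.
* For a real quadratic irrational `ξ` (with `A ξ² + B ξ + C = 0`, `A > 0`), a base `b` and
  `L ≥ 1` with `2 A (b - 1)² < gcd(b, 2 A) b (b ^ L - 1)`, more than `1.52 √(n / L)` of the first
  `n` digits are different from `0` and more than `1.52 √(n / L)` are different from `b - 1`, for
  all large `n` (`L = 1` is allowed if `2 A` divides `b`, and `L = 2` if `2 A ≤ b + 2`).
-/

set_option autoImplicit false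

open Finset

namespace Pool.Agent.Results.MP_0308e6_nt.NonzeroDigitBlocks

/-- the `k`-th digit of `ξ` after the point in base `b` -/
noncomputable def digit (b : ℕ) (ξ : ℝ) (k : ℕ) : ℤ := ⌊ξ * (b : ℝ) ^ k⌋ % (b : ℤ)

/-- the number of the first `n` digits of `ξ` in base `b` which are different from `c` -/
noncomputable def others (b : ℕ) (ξ : ℝ) (c : ℤ) (n : ℕ) : ℕ :=
  ((Icc 1 n).filter (fun k => digit b ξ k ≠ c)).card

open Classical in
/-- the number of the first `n` blocks of `k` binary digits of `ξ` which contain a one -/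
noncomputable def blocksWithOne (k : ℕ) (ξ : ℝ) (n : ℕ) : ℕ :=
  ((range n).filter (fun j => ∃ i ∈ Icc (j * k + 1) ((j + 1) * k), digit 2 ξ i = 1)).card

lemma digit_neg {b : ℕ} (hb : 2 ≤ b) {ξ : ℝ} (hirr : Irrational ξ) (k : ℕ) :
    digit b (-ξ) k = b - 1 - digit b ξ k := by
  unfold digit
  have h1 : ⌊-ξ * (b : ℝ) ^ k⌋ = -⌊ξ * (b : ℝ) ^ k⌋ - 1 := by
    have h2 : Irrational (ξ * ((b ^ k : ℕ) : ℝ)) := hirr.mul_natCast (by positivity)
    have h3 : ξ * (b : ℝ) ^ k = ξ * ((b ^ k : ℕ) : ℝ) := by push_cast; rfl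
    rw [neg_mul, h3]
    set z : ℝ := ξ * ((b ^ k : ℕ) : ℝ) with hz
    rw [Int.floor_eq_iff]
    push_cast
    have h4 := Int.floor_le z
    have h5 := Int.lt_floor_add_one z
    have h6 : (⌊z⌋ : ℝ) ≠ z := fun h => h2 ⟨(⌊z⌋ : ℚ), by push_cast; exact h⟩
    have h7 : (⌊z⌋ : ℝ) < z := lt_of_le_of_ne h4 h6
    constructor <;> linarith
  rw [h1]
  set m := ⌊ξ * (b : ℝ) ^ k⌋
  have hb' : (0 : ℤ) < b := by exact_mod_cast (by omega : 0 < b)
  have h8 := Int.emod_add_mul_ediv m b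
  have h9 := Int.emod_nonneg m hb'.ne'
  have h10 := Int.emod_lt_of_pos m hb'
  have h11 : -m - 1 = (b - 1 - m % b) + b * (-(m / b) - 1) := by linarith
  rw [h11, Int.add_mul_emod_self_left]
  exact Int.emod_eq_of_lt (by omega) (by omega)

lemma others_neg {b : ℕ} (hb : 2 ≤ b) {ξ : ℝ} (hirr : Irrational ξ) (n : ℕ) :
    others b (-ξ) 0 n = others b ξ (b - 1) n := by
  unfold others
  congr 1
  apply filter_congr
  intro k _
  rw [digit_neg hb hirr, not_iff_not]
  omega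

/-- The result. -/
theorem result :
    (∀ d : ℕ, ¬ IsSquare d → ∃ n₀ : ℕ, ∀ n : ℕ, n₀ ≤ n →
      (∀ k : ℕ, 1 ≤ k → 38 / 25 * Real.sqrt n < (blocksWithOne k (Real.sqrt d) n : ℝ)) ∧
      (∀ b : ℕ, 2 ≤ b →
        38 / 25 * Real.sqrt ((Nat.gcd b 2 : ℕ) * n / 2) < (others b (Real.sqrt d) 0 n : ℝ))) ∧
    (∀ b : ℕ, 2 ≤ b → ∀ A B C : ℤ, 0 < A → ∀ ξ : ℝ, Irrational ξ →
      (A : ℝ) * ξ ^ 2 + B * ξ + C = 0 → ∀ L : ℕ, 1 ≤ L →
      2 * A * ((b : ℤ) - 1) ^ 2 < (Int.gcd b (2 * A) : ℕ) * b * ((b : ℤ) ^ L - 1) →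
      ∃ n₀ : ℕ, ∀ n : ℕ, n₀ ≤ n →
        38 / 25 * Real.sqrt ((n : ℝ) / L) < (others b ξ 0 n : ℝ) ∧
        38 / 25 * Real.sqrt ((n : ℝ) / L) < (others b ξ (b - 1) n : ℝ)) := by
  refine ⟨?_, ?_⟩
  · intro d hd
    obtain ⟨n1, h1⟩ := Run7.h409.Nz.sqrt_blocks hd
    obtain ⟨n2, h2⟩ := Run7.h409.Nz.sqrt_real hd
    exact ⟨max n1 n2, fun n hn => ⟨fun k hk => h1 n ((le_max_left _ _).trans hn) k hk,
      fun b hb => h2 n ((le_max_right _ _).trans hn) b hb⟩⟩
  · intro b hb A B C hA ξ hξ hq L hL hc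
    have hc' : 2 * (A : ℝ) * ((b : ℝ) - 1) ^ 2 <
        (Int.gcd b (2 * A) : ℕ) * b * ((b : ℝ) ^ L - 1) := by exact_mod_cast hc
    obtain ⟨n1, h1⟩ := Run7.h409.Nz.quad_real_nz hb hA hξ hq hL hc'
    obtain ⟨n2, h2⟩ := Run7.h409.Nz.quad_real_nz hb (A := A) (B := -B) (C := C) hA hξ.neg
      (by push_cast; linarith) hL hc'
    refine ⟨max n1 n2, fun n hn => ⟨h1 n ((le_max_left _ _).trans hn), ?_⟩⟩
    rw [← others_neg hb hξ]
    exact h2 n ((le_max_right _ _).trans hn)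

end Pool.Agent.Results.MP_0308e6_nt.NonzeroDigitBlocks
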