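import Pool.Agent.Run7.h53.TW.Cls

/-!
# The ones of `√2` in residue classes: if they are few then they are equidistributed

No hypothesis is assumed.  It is known that `√2` has at least `c √n` ones among its first `n` binary
digits (and as many zeros), and that for every `c < √(8 / π) = 1.595…` there are arbitrarily large
`n` with at least `c √n` of them.  Nothing was known about the arithmetic nature of the places of the
ones (the even places, say).

* Let `v` be `0` or `1`.  If at most `α √n` of the first `n` binary digits of `√2` are `v`, for all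
  large `n`, with `α < √(12 / π) = 1.954…`, then at least `c √n` of the digits at even places up to
  `n`, and at least `c √n` of the digits at odd places, are `v`.  There is such a constant `α_q` for
  every modulus `q`, and `α_q > √(8 / π)`.
* Let `f(σ)` be the sum of `exp (-σ k)` over the places `k` of the digit `v`, and `f_θ(σ)` the sum of
  `exp (-σ k + i θ k)`.  Then `f(σ)² ≥ (2 - ε) / σ + |f_θ(σ)|² / √(5 - 4 cos θ)` for all small `σ`, for
  every `θ` which is not a multiple of `2 π`.  (Known: `f(σ)² ≥ (2 - ε) / σ`.)  So the set of the places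
  is uniformly distributed in the residue classes of every modulus in the measure in which it is
  close to the lower bound.
* This holds for the digit sums, and the sums of the complementary digits, of all real quadratic
  irrationals in all bases; and it is a special case of an inequality with arbitrary weights.

Idea.  Let `c_k` be the digits and `r_m` the sum of `c_i c_j` over `i + j = m`.  The carries
`T_n = ∑_(m > n) r_m b^(n - m)` satisfy `T_n ≥ gcd(b, 2 A) / A` for almost all `n`, because of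
integrality and of the parity of `r_m`.  Sum this with weights `w_n ≥ 0`: `∑_n w_n T_n = ∑_m v_m r_m`,
where `v` can be every nonnegative sequence with `v_m ≤ b v_(m+1)`, and all bounded sequences can be
taken at once.  The trigonometric weights
`v_m = exp (-σ m) (1 + κ cos (θ m + φ))` are allowed if `κ |b e^(i θ) - 1| ≤ b - 1`, and then `φ` is
chosen such that the second term gives `- κ |f_θ(σ)|²`.
-/

set_option autoImplicit false

open Finset Filter Topology

namespace Pool.Agent.Results.MP_0308e6_nt.ResidueClassesOfOnes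

/-- the `k`-th digit of `ξ` after the point in base `b` -/
noncomputable def digit (b : ℕ) (ξ : ℝ) (k : ℕ) : ℤ := ⌊ξ * (b : ℝ) ^ k⌋ % (b : ℤ)

/-- the sum of `a_k exp (-σ k)` over `k ≥ 1` -/
noncomputable def expSum (a : ℕ → ℝ) (σ : ℝ) : ℝ :=
  ∑' k : ℕ, a (k + 1) * Real.exp (-(σ * ((k + 1 : ℕ) : ℝ)))

/-- the sum of `a_k exp (-σ k) z^k` over `k ≥ 1` -/
noncomputable def twistedSum (a : ℕ → ℝ) (z : ℂ) (σ : ℝ) : ℂ :=
  ∑' k : ℕ, ((a (k + 1) * Real.exp (-(σ * ((k + 1 : ℕ) : ℝ))) : ℝ) : ℂ) * z ^ (k + 1)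

/-- the sequence `a`, restricted to the `k` congruent to `c` modulo `q` -/
def restrict (a : ℕ → ℝ) (q c k : ℕ) : ℝ := if k % q = c % q then a k else 0

/-- The inequality with arbitrary weights: for every `δ > 0` there is `C` such that for all `n` and all
`v_1, v_2, … ∈ [0, 1]` with `v_m ≤ b v_(m+1)` the sum of `a_i a_j v_(i+j)` over `i, j ≥ 1`, `i + j ≤ n`
is at least `s (v_1 + ⋯ + v_n) - δ n - C (a_1 + ⋯ + a_n + 1)`. -/
def AllWeights (b : ℕ) (s : ℝ) (a : ℕ → ℝ) : Prop :=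
  ∀ δ : ℝ, 0 < δ → ∃ C : ℝ, ∀ (n : ℕ) (v : ℕ → ℝ),
    (∀ m, 0 ≤ v m ∧ v m ≤ 1 ∧ v m ≤ b * v (m + 1)) →
    s * ∑ m ∈ Icc 1 n, v m ≤
      ∑ p ∈ (Icc 1 n ×ˢ Icc 1 n).filter (fun p => p.1 + p.2 ≤ n), a p.1 * a p.2 * v (p.1 + p.2) +
        δ * n + C * (∑ k ∈ Icc 1 n, a k + 1)

/-- The inequality with a twist: if `|z| = 1`, `z ≠ 1`, then
`f(σ)² ≥ (s - ε) / σ + (b - 1) |f_z(σ)|² / |b z - 1|` for all small `σ > 0`. -/
def Twists (b : ℕ) (s : ℝ) (a : ℕ → ℝ) : Prop :=
  ∀ z : ℂ, ‖z‖ = 1 → z ≠ 1 → ∀ ε : ℝ, 0 < ε → ∀ᶠ σ : ℝ in 𝓝[>] 0,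
    (s - ε) / σ + ((b : ℝ) - 1) / ‖(b : ℂ) * z - 1‖ * ‖twistedSum a z σ‖ ^ 2 ≤ expSum a σ ^ 2

/-- Residue classes: for all small `σ > 0` and all residue classes `c` modulo `q`,
`(q f_c(σ) - f(σ))² ≤ L_q² (f(σ)² - (s - ε) / σ)`, where `L_q` is the sum of `√(|b ω - 1| / (b - 1))` over
the `q`-th roots of unity `ω ≠ 1`. -/
def Classes (b : ℕ) (s : ℝ) (a : ℕ → ℝ) : Prop :=
  ∀ q : ℕ, q ≠ 0 → ∀ ε : ℝ, 0 < ε → ∀ᶠ σ : ℝ in 𝓝[>] 0, ∀ c : ℕ,
    ((q : ℝ) * expSum (restrict a q c) σ - expSum a σ) ^ 2 ≤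
      (∑ j ∈ Ico 1 q, Real.sqrt (‖(b : ℂ) * Complex.exp (2 * Real.pi * Complex.I / q) ^ j - 1‖ /
        ((b : ℝ) - 1))) ^ 2 * (expSum a σ ^ 2 - (s - ε) / σ)

open Pool.Agent.H394R2.Ones Pool.Agent.W288.LM Run7.h53.TW in
/-- everything for the digits of one real quadratic irrational -/
theorem real_case {b : ℕ} (hb : 2 ≤ b) {A B C : ℤ} (hA : 0 < A) {ξ : ℝ} (hirr : Irrational ξ)
    (hq : (A : ℝ) * ξ ^ 2 + B * ξ + C = 0) :
    AllWeights b (((b : ℝ) - 1) * (((Int.gcd b (2 * A) : ℕ) : ℝ) / A))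
      (fun k => (digit b ξ k : ℝ)) ∧
    Twists b (((b : ℝ) - 1) * (((Int.gcd b (2 * A) : ℕ) : ℝ) / A)) (fun k => (digit b ξ k : ℝ)) ∧
    Classes b (((b : ℝ) - 1) * (((Int.gcd b (2 * A) : ℕ) : ℝ) / A))
      (fun k => (digit b ξ k : ℝ)) := by
  have hbR : (2 : ℝ) ≤ b := by exact_mod_cast hb
  set y : ℝ := Int.fract ξ with hy
  have hξ : ξ = ⌊ξ⌋ + y := (Int.floor_add_fract ξ).symm
  have hyirr : Irrational y := by
    have : y = ξ - (⌊ξ⌋ : ℤ) := rfl
    rw [this]
    exact hirr.sub_intCast _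
  have hy0 : 0 < y := lt_of_le_of_ne (Int.fract_nonneg ξ) (Ne.symm hyirr.ne_zero)
  have hy1 : y < 1 := Int.fract_lt_one ξ
  have hq' : (A : ℝ) * y ^ 2 + ((B + 2 * A * ⌊ξ⌋ : ℤ) : ℝ) * y +
      ((C + B * ⌊ξ⌋ + A * ⌊ξ⌋ ^ 2 : ℤ) : ℝ) = 0 := by
    have h1 : (A : ℝ) * (⌊ξ⌋ + y) ^ 2 + B * (⌊ξ⌋ + y) + C = 0 := by rw [← hξ]; exact hq
    push_cast
    linarith
  have ha : ∀ k, (digit b ξ (k + 1) : ℝ) = x b y (k + 1) := fun k => digit_eq hirr k
  have ha0 : ∀ k, (0 : ℝ) ≤ digit b ξ k := fun k => digit_nonneg hb ξ k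
  have hab : ∀ k, |(digit b ξ k : ℝ)| ≤ b := by
    intro k
    rw [abs_of_nonneg (ha0 k)]
    have h1 : digit b ξ k < b := Int.emod_lt_of_pos _ (by exact_mod_cast (by omega : 0 < b))
    have h2 : ((digit b ξ k : ℤ) : ℝ) < b := by exact_mod_cast h1
    exact h2.le
  have htw : Twisted b (((b : ℝ) - 1) * (((Int.gcd b (2 * A) : ℕ) : ℝ) / A))
      (fun k => (digit b ξ k : ℝ)) := twisted_of hb hy0 hy1 hyirr hA hq' ha ha0 hab
  refine ⟨?_, htw, ?_⟩
  · intro δ hδ
    set s : ℝ := ((b : ℝ) - 1) * (((Int.gcd b (2 * A) : ℕ) : ℝ) / A) with hs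
    have hs0 : 0 ≤ s := by
      have h1 : (1 : ℝ) ≤ A := by exact_mod_cast hA
      exact mul_nonneg (by linarith) (by positivity)
    obtain ⟨C₀, hC0, hC⟩ := weights hb hy0 hy1 hyirr hA hq' δ hδ
    refine ⟨C₀ + s, fun n v hv => ?_⟩
    have h1 := hC n v (fun m => (hv m).1) (fun m => (hv m).2.1) (fun m => (hv m).2.2)
    rw [← hs] at h1
    -- the sum of the digits
    have hK : (K b y n : ℝ) = ∑ k ∈ Icc 1 n, (digit b ξ k : ℝ) := by
      unfold K
      rw [sum_range_succ', x_zero hy0 hy1]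
      push_cast
      rw [add_zero, range_eq_Ico, sum_congr rfl fun k _ => (ha k).symm,
        sum_Ico_add' (fun k => (digit b ξ k : ℝ)) 0 n 1]
      rfl
    -- the sum of the weights
    have hV : ∑ m ∈ Icc 1 n, v m ≤ ∑ m ∈ range n, v m + 1 := by
      have e1 : ∑ m ∈ Icc 1 n, v m + v 0 = ∑ m ∈ range n, v m + v n := by
        rw [← sum_range_succ, sum_range_succ' v, range_eq_Ico, sum_Ico_add' v 0 n 1]
        rfl
      have e2 := (hv 0).1
      have e3 := (hv n).2.1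
      linarith
    -- the sum of the products
    have hR : ∑ m ∈ range (n + 1), (r b y m : ℝ) * v m =
        ∑ p ∈ (Icc 1 n ×ˢ Icc 1 n).filter (fun p => p.1 + p.2 ≤ n),
          (digit b ξ p.1 : ℝ) * digit b ξ p.2 * v (p.1 + p.2) := by
      have e1 := pair_sum n (fun i j : ℕ => ((x b y i : ℝ) * x b y j) * v (i + j))
      have e2 := sum_filter_add_sum_filter_not (range (n + 1) ×ˢ range (n + 1))
        (fun p : ℕ × ℕ => p.1 + p.2 ≤ n) (fun p => ((x b y p.1 : ℝ) * x b y p.2) * v (p.1 + p.2))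
      have e3 : ∑ m ∈ range (n + 1), ∑ p ∈ antidiagonal m,
          ((x b y p.1 : ℝ) * x b y p.2) * v (p.1 + p.2) =
          ∑ m ∈ range (n + 1), (r b y m : ℝ) * v m := by
        refine sum_congr rfl fun m _ => ?_
        unfold r
        push_cast
        rw [sum_mul]
        refine sum_congr rfl fun p hp => ?_
        have : p.1 + p.2 = m := mem_antidiagonal.mp hp
        rw [← this]
      have e4 : ∑ m ∈ range (n + 1), (r b y m : ℝ) * v m =
          ∑ p ∈ (range (n + 1) ×ˢ range (n + 1)).filter (fun p : ℕ × ℕ => p.1 + p.2 ≤ n),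
            ((x b y p.1 : ℝ) * x b y p.2) * v (p.1 + p.2) := by
        rw [← e3]; linarith
      rw [e4]
      symm
      have e5 : ∑ p ∈ (Icc 1 n ×ˢ Icc 1 n).filter (fun p => p.1 + p.2 ≤ n),
          (digit b ξ p.1 : ℝ) * digit b ξ p.2 * v (p.1 + p.2) =
          ∑ p ∈ (Icc 1 n ×ˢ Icc 1 n).filter (fun p => p.1 + p.2 ≤ n),
            ((x b y p.1 : ℝ) * x b y p.2) * v (p.1 + p.2) := by
        refine sum_congr rfl fun p hp => ?_
        rw [mem_filter, mem_product, mem_Icc, mem_Icc] at hp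
        obtain ⟨i, hi⟩ : ∃ i, p.1 = i + 1 := ⟨p.1 - 1, by omega⟩
        obtain ⟨j, hj⟩ : ∃ j, p.2 = j + 1 := ⟨p.2 - 1, by omega⟩
        rw [hi, hj, ha i, ha j]
      rw [e5]
      refine sum_subset ?_ ?_
      · intro p hp
        rw [mem_filter, mem_product, mem_Icc, mem_Icc] at hp
        rw [mem_filter, mem_product, mem_range, mem_range]
        omega
      · intro p hp hp2
        rw [mem_filter, mem_product, mem_range, mem_range] at hp
        rw [mem_filter, mem_product, mem_Icc, mem_Icc] at hp2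
        have h0 : p.1 = 0 ∨ p.2 = 0 := by omega
        rcases h0 with h0 | h0
        · rw [h0, x_zero hy0 hy1]; simp
        · rw [h0, x_zero hy0 hy1]; simp
    rw [hR, hK] at h1
    have h2 := mul_le_mul_of_nonneg_left hV hs0
    have h3 : 0 ≤ ∑ k ∈ Icc 1 n, (digit b ξ k : ℝ) := sum_nonneg fun k _ => ha0 k
    have h4 := mul_nonneg hs0 h3
    have e : (C₀ + s) * (∑ k ∈ Icc 1 n, (digit b ξ k : ℝ) + 1) =
        C₀ * (∑ k ∈ Icc 1 n, (digit b ξ k : ℝ) + 1) + s * ∑ k ∈ Icc 1 n, (digit b ξ k : ℝ) + s := by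
      ring
    rw [e]
    linarith
  · intro q hq0 ε hε
    filter_upwards [classes hab hb htw hq0 hε] with σ h c
    exact h.2 c

open Run7.h53.TW in
lemma LL_two (q : ℕ) :
    LL 2 q = ∑ j ∈ Ico 1 q, Real.sqrt (Real.sqrt (5 - 4 * Real.cos (2 * Real.pi * j / q))) := by
  unfold LL
  refine sum_congr rfl fun j hj => ?_
  have hq : q ≠ 0 := by have := mem_Ico.mp hj; omega
  have h1 := om_norm hq j
  set z := om q ^ j with hz
  have hre : z.re = Real.cos (2 * Real.pi * j / q) := by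
    rw [hz]
    unfold om
    rw [← Complex.exp_nat_mul]
    have : (j : ℂ) * (2 * Real.pi * Complex.I / q) = ((2 * Real.pi * j / q : ℝ) : ℂ) * Complex.I := by
      push_cast; ring
    rw [this, Complex.exp_ofReal_mul_I_re]
  have h2 : z.re ^ 2 + z.im ^ 2 = 1 := by
    have h3 := Complex.sq_norm z
    rw [h1, Complex.normSq_apply] at h3
    linarith [h3]
  have h3 : ‖((2 : ℕ) : ℂ) * z - 1‖ ^ 2 = 5 - 4 * Real.cos (2 * Real.pi * j / q) := by
    rw [Complex.sq_norm, Complex.normSq_apply, ← hre]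
    simp only [Complex.sub_re, Complex.mul_re, Complex.natCast_re, Complex.natCast_im, zero_mul,
      sub_zero, Complex.one_re, Complex.sub_im, Complex.mul_im, add_zero, Complex.one_im]
    push_cast
    linear_combination 4 * h2
  rw [← h3, Real.sqrt_sq (norm_nonneg _)]
  congr 1
  norm_num

open Run7.h53.TW in
lemma sqrt_two_case (v : ℤ) (hv : v = 0 ∨ v = 1) :
    Twisted 2 2 (fun k => if digit 2 (Real.sqrt 2) k = v then 1 else 0) := by
  have hirr : Irrational (Real.sqrt 2) := irrational_sqrt_two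
  have h2 : Real.sqrt 2 ^ 2 = 2 := Real.sq_sqrt (by norm_num)
  have hd : ∀ k, digit 2 (Real.sqrt 2) k = 0 ∨ digit 2 (Real.sqrt 2) k = 1 := by
    intro k
    unfold digit
    push_cast
    omega
  have hs : (((2 : ℕ) : ℝ) - 1) * (((Int.gcd ((2 : ℕ) : ℤ) (2 * 1) : ℕ) : ℝ) / ((1 : ℤ) : ℝ)) = 2 := by
    norm_num
  rcases hv with rfl | rfl
  · have h := (real_case (b := 2) le_rfl (A := 1) (B := 0) (C := -2) one_pos hirr.neg (by
      push_cast; rw [neg_sq, h2]; ring)).2.1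
    rw [hs] at h
    have e : (fun k => (digit 2 (-Real.sqrt 2) k : ℝ)) =
        fun k => if digit 2 (Real.sqrt 2) k = 0 then 1 else 0 := by
      funext k
      have h3 := Pool.Agent.W288.LM.digit_neg (b := 2) le_rfl hirr k
      change digit 2 (-Real.sqrt 2) k = ((2 : ℕ) : ℤ) - 1 - digit 2 (Real.sqrt 2) k at h3
      rw [h3]
      rcases hd k with h4 | h4 <;> rw [h4] <;> norm_num
    rw [e] at h
    exact h
  · have h := (real_case (b := 2) le_rfl (A := 1) (B := 0) (C := -2) one_pos hirr (by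
      push_cast; rw [h2]; ring)).2.1
    rw [hs] at h
    have e : (fun k => (digit 2 (Real.sqrt 2) k : ℝ)) =
        fun k => if digit 2 (Real.sqrt 2) k = 1 then 1 else 0 := by
      funext k
      rcases hd k with h4 | h4 <;> rw [h4] <;> norm_num
    rw [e] at h
    exact h

/-- The result. -/
theorem result :
    -- (1) the digits and the complementary digits of real quadratic irrationals in all bases
    (∀ b : ℕ, 2 ≤ b → ∀ A B C : ℤ, 0 < A → ∀ ξ : ℝ, Irrational ξ →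
      (A : ℝ) * ξ ^ 2 + B * ξ + C = 0 → ∀ a : ℕ → ℝ,
      ((∀ k, a k = (digit b ξ k : ℝ)) ∨ (∀ k, a k = (b : ℝ) - 1 - (digit b ξ k : ℝ))) →
        AllWeights b (((b : ℝ) - 1) * (((Int.gcd b (2 * A) : ℕ) : ℝ) / A)) a ∧
        Twists b (((b : ℝ) - 1) * (((Int.gcd b (2 * A) : ℕ) : ℝ) / A)) a ∧
        Classes b (((b : ℝ) - 1) * (((Int.gcd b (2 * A) : ℕ) : ℝ) / A)) a) ∧
    -- (2) the places of the binary digit `v` of `√2` in the residue classes modulo `q`
    (∀ v : ℤ, v = 0 ∨ v = 1 → ∀ q : ℕ, q ≠ 0 → ∀ α L : ℝ,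
      L = ∑ j ∈ Ico 1 q, Real.sqrt (Real.sqrt (5 - 4 * Real.cos (2 * Real.pi * j / q))) →
      Real.pi * α ^ 2 * (L ^ 2 - 1) < 8 * L ^ 2 →
      (∀ᶠ n : ℕ in atTop,
        (((Icc 1 n).filter (fun k => digit 2 (Real.sqrt 2) k = v)).card : ℝ) ≤ α * Real.sqrt n) →
      ∀ c : ℕ, ∃ c' : ℝ, 0 < c' ∧ ∀ᶠ n : ℕ in atTop, c' * Real.sqrt n ≤
        (((Icc 1 n).filter
          (fun k => k % q = c % q ∧ digit 2 (Real.sqrt 2) k = v)).card : ℝ)) ∧
    -- (3) the case `q = 2`
    (∀ v : ℤ, v = 0 ∨ v = 1 → ∀ α : ℝ, Real.pi * α ^ 2 < 12 →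
      (∀ᶠ n : ℕ in atTop,
        (((Icc 1 n).filter (fun k => digit 2 (Real.sqrt 2) k = v)).card : ℝ) ≤ α * Real.sqrt n) →
      ∃ c' : ℝ, 0 < c' ∧ ∀ᶠ n : ℕ in atTop,
        c' * Real.sqrt n ≤
          (((Icc 1 n).filter (fun k => Even k ∧ digit 2 (Real.sqrt 2) k = v)).card : ℝ) ∧
        c' * Real.sqrt n ≤
          (((Icc 1 n).filter (fun k => Odd k ∧ digit 2 (Real.sqrt 2) k = v)).card : ℝ)) := by
  have hcount : ∀ v : ℤ, v = 0 ∨ v = 1 → ∀ q : ℕ, q ≠ 0 → ∀ α L : ℝ,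
      L = ∑ j ∈ Ico 1 q, Real.sqrt (Real.sqrt (5 - 4 * Real.cos (2 * Real.pi * j / q))) →
      Real.pi * α ^ 2 * (L ^ 2 - 1) < 8 * L ^ 2 →
      (∀ᶠ n : ℕ in atTop,
        (((Icc 1 n).filter (fun k => digit 2 (Real.sqrt 2) k = v)).card : ℝ) ≤ α * Real.sqrt n) →
      ∀ c : ℕ, ∃ c' : ℝ, 0 < c' ∧ ∀ᶠ n : ℕ in atTop, c' * Real.sqrt n ≤
        (((Icc 1 n).filter
          (fun k => k % q = c % q ∧ digit 2 (Real.sqrt 2) k = v)).card : ℝ) := by
    intro v hv q hq α L hL hα hN c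
    have h1 := sqrt_two_case v hv
    have h2 : ∀ n : ℕ, ∑ k ∈ Icc 1 n, (if digit 2 (Real.sqrt 2) k = v then (1 : ℝ) else 0) =
        (((Icc 1 n).filter (fun k => digit 2 (Real.sqrt 2) k = v)).card : ℝ) := by
      intro n
      rw [card_filter]
      push_cast
      rfl
    obtain ⟨c', hc', h⟩ := Run7.h53.TW.counting (β := 1)
      (a := fun k => if digit 2 (Real.sqrt 2) k = v then (1 : ℝ) else 0)
      (fun k => by split_ifs <;> norm_num) (fun k => by split_ifs <;> norm_num)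
      le_rfl two_pos h1 hq (α := α) (by
        filter_upwards [hN] with n hn
        rw [h2]
        exact hn) (by
        rw [LL_two, ← hL]
        linarith) c
    refine ⟨c', hc', ?_⟩
    filter_upwards [h] with n hn
    refine hn.trans (le_of_eq ?_)
    rw [card_filter]
    push_cast
    refine sum_congr rfl fun k _ => ?_
    unfold Run7.h53.TW.cls
    by_cases h3 : k % q = c % q <;> by_cases h4 : digit 2 (Real.sqrt 2) k = v <;>
      simp [h3, h4]
  refine ⟨?_, hcount, ?_⟩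
  · intro b hb A B C hA ξ hirr hq a ha
    rcases ha with ha | ha
    · obtain rfl : a = fun k => (digit b ξ k : ℝ) := funext ha
      exact real_case hb hA hirr hq
    · have h1 := real_case hb (A := A) (B := -B) (C := C) hA hirr.neg (by push_cast; linarith)
      have h2 : (fun k => (digit b (-ξ) k : ℝ)) = fun k => (b : ℝ) - 1 - (digit b ξ k : ℝ) := by
        funext k
        have h3 := Pool.Agent.W288.LM.digit_neg hb hirr k
        change digit b (-ξ) k = (b : ℤ) - 1 - digit b ξ k at h3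
        rw [h3]
        push_cast
        ring
      rw [h2] at h1
      obtain rfl : a = fun k => (b : ℝ) - 1 - (digit b ξ k : ℝ) := funext ha
      exact h1
  · intro v hv α hα hN
    have hL2 : (Real.sqrt 3 : ℝ) =
        ∑ j ∈ Ico 1 2, Real.sqrt (Real.sqrt (5 - 4 * Real.cos (2 * Real.pi * (j : ℕ) / (2 : ℕ)))) := by
      rw [show Ico 1 2 = {1} from rfl, sum_singleton]
      have : 2 * Real.pi * ((1 : ℕ) : ℝ) / ((2 : ℕ) : ℝ) = Real.pi := by push_cast; ring
      rw [this, Real.cos_pi]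
      have h9 : Real.sqrt (5 - 4 * (-1)) = 3 := by
        rw [show (5 : ℝ) - 4 * (-1) = 3 ^ 2 by norm_num, Real.sqrt_sq (by norm_num)]
      rw [h9]
    have hcond : Real.pi * α ^ 2 * (Real.sqrt 3 ^ 2 - 1) < 8 * Real.sqrt 3 ^ 2 := by
      rw [Real.sq_sqrt (by norm_num)]
      linarith
    obtain ⟨c₀, h0, H0⟩ := hcount v hv 2 two_ne_zero α _ hL2 hcond hN 0
    obtain ⟨c₁, h1, H1⟩ := hcount v hv 2 two_ne_zero α _ hL2 hcond hN 1
    refine ⟨min c₀ c₁, by positivity, ?_⟩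
    filter_upwards [H0, H1] with n h2 h3
    have e0 : (Icc 1 n).filter (fun k => k % 2 = 0 % 2 ∧ digit 2 (Real.sqrt 2) k = v) =
        (Icc 1 n).filter (fun k => Even k ∧ digit 2 (Real.sqrt 2) k = v) := by
      refine filter_congr fun k _ => ?_
      rw [Nat.even_iff]
    have e1 : (Icc 1 n).filter (fun k => k % 2 = 1 % 2 ∧ digit 2 (Real.sqrt 2) k = v) =
        (Icc 1 n).filter (fun k => Odd k ∧ digit 2 (Real.sqrt 2) k = v) := by
      refine filter_congr fun k _ => ?_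
      rw [Nat.odd_iff]
    rw [e0] at h2
    rw [e1] at h3
    have hs : 0 ≤ Real.sqrt (n : ℝ) := Real.sqrt_nonneg _
    exact ⟨(mul_le_mul_of_nonneg_right (min_le_left _ _) hs).trans h2,
      (mul_le_mul_of_nonneg_right (min_le_right _ _) hs).trans h3⟩

end Pool.Agent.Results.MP_0308e6_nt.ResidueClassesOfOnes
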