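import Pool.Agent.Run7.h17.Dig6

/-!
# Square roots of sparse perturbations of 2 are absolutely normal

`√2 = √(2 + 0)`: the base `b` expansion of `2` has one nonzero digit. We prove that for a random number
`ξ = ∑ ξ_k b^(-k-1)` with independent digits `ξ_k ∈ {0, 1}` which are `1` with probability at least `a (k+1)^(-c)`,
`c < 1/2` (so only about `N^(1-c)` of the first `N` digits are nonzero), `f(x₀ + ξ)` is almost surely normal to every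
base, for every `f` with bi-Lipschitz derivative.
-/

set_option autoImplicit false

namespace Pool.Agent.Results.MP_0308e6_nt.SparsePerturbations

open MeasureTheory ProbabilityTheory Finset Filter Topology

/-- the number `∑ x_k b^(-k-1)` with the digits `x_k ∈ {0, 1}` -/
noncomputable def num (b : ℕ) (x : ℕ → Bool) : ℝ := ∑' k : ℕ, if x k = true then ((b : ℝ)⁻¹) ^ (k + 1) else 0

/-- `y` is normal to base `q`: for every `k ≥ 1` every block `m` of `k` digits (`0 ≤ m < q ^ k`) occurs among the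
blocks of the digits `n + 1, ..., n + k` after the point, `n < N`, with asymptotic frequency `q ^ (-k)` -/
def NormalTo (q : ℕ) (y : ℝ) : Prop :=
  ∀ k : ℕ, 1 ≤ k → ∀ m : ℤ, 0 ≤ m → m < (q : ℤ) ^ k →
    Tendsto (fun N : ℕ => (((range N).filter (fun n : ℕ => ⌊(q : ℝ) ^ (n + k) * y⌋ % (q : ℤ) ^ k = m)).card : ℝ) / (N : ℝ))
      atTop (𝓝 (1 / (q : ℝ) ^ k))

theorem result :
    -- almost sure statement
    (∀ b : ℕ, 2 ≤ b → ∀ (x₀ A B : ℝ) (f g : ℝ → ℝ), 0 < B →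
      (∀ u ∈ Set.Icc x₀ (x₀ + 1), HasDerivWithinAt f (g u) (Set.Icc x₀ (x₀ + 1)) u) →
      (∀ u ∈ Set.Icc x₀ (x₀ + 1), ∀ v ∈ Set.Icc x₀ (x₀ + 1), B * |v - u| ≤ |g v - g u| ∧ |g v - g u| ≤ A * |v - u|) →
      ∀ (Ω : Type) [MeasurableSpace Ω] (μ : Measure Ω) [IsProbabilityMeasure μ] (ξ : ℕ → Ω → Bool),
      (∀ k, Measurable (ξ k)) → iIndepFun ξ μ →
      ∀ a c : ℝ, 0 < a → 0 ≤ c → c < 1 / 2 →
      (∀ k : ℕ, a * ((k : ℝ) + 1) ^ (-c) ≤ μ.real {ω | ξ k ω = true} ∧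
        μ.real {ω | ξ k ω = true} ≤ 1 - a * ((k : ℝ) + 1) ^ (-c)) →
      (∀ᵐ ω ∂μ, ∀ q : ℕ, 2 ≤ q → NormalTo q (f (x₀ + num b fun k => ξ k ω))) ∧
      (∃ κ : ℝ, 0 < κ ∧ ∀ q : ℕ, 2 ≤ q → ∀ h : ℝ, h ≠ 0 → ∀ᵐ ω ∂μ, ∃ C : ℝ, ∀ N : ℕ, 1 ≤ N →
        ‖∑ n ∈ range N, Complex.exp ((2 * Real.pi * (h * ((q : ℝ) ^ n * f (x₀ + num b fun k => ξ k ω))) : ℝ) * Complex.I)‖ ≤
          C * (N : ℝ) ^ (1 - κ))) ∧
    -- square roots: almost surely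
    (∀ b : ℕ, 2 ≤ b → ∀ x₀ d : ℝ, 0 < x₀ → 0 < d →
      ∀ (Ω : Type) [MeasurableSpace Ω] (μ : Measure Ω) [IsProbabilityMeasure μ] (ξ : ℕ → Ω → Bool),
      (∀ k, Measurable (ξ k)) → iIndepFun ξ μ →
      ∀ a c : ℝ, 0 < a → 0 ≤ c → c < 1 / 2 →
      (∀ k : ℕ, a * ((k : ℝ) + 1) ^ (-c) ≤ μ.real {ω | ξ k ω = true} ∧
        μ.real {ω | ξ k ω = true} ≤ 1 - a * ((k : ℝ) + 1) ^ (-c)) →
      ∀ᵐ ω ∂μ, ∀ q : ℕ, 2 ≤ q → NormalTo q √(x₀ + d * num b fun k => ξ k ω)) ∧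
    -- square roots: numbers with few nonzero digits
    (∀ b : ℕ, 2 ≤ b → ∀ x₀ d : ℝ, 0 < x₀ → 0 < d → ∀ ε : ℝ, 0 < ε →
      ∃ x : ℕ → Bool,
        (∃ C : ℝ, ∀ N : ℕ, 1 ≤ N → (((range N).filter fun k => x k = true).card : ℝ) ≤ C * (N : ℝ) ^ (1 / 2 + ε)) ∧
        ∀ q : ℕ, 2 ≤ q → NormalTo q √(x₀ + d * num b x)) := by
  have hnum : ∀ (b : ℕ) (x₀ : ℝ) (x : ℕ → Bool), Pool.Agent.Run7.h17.Dig.XI (Pool.Agent.Run7.h17.Dig.bi b) x₀ x = x₀ + num b x :=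
    fun b x₀ x => rfl
  refine ⟨?_, ?_, ?_⟩
  · intro b hb x₀ A B f g hB hf hg Ω _ μ _ ξ hm hi a c ha hc0 hc hp
    have D := Pool.Agent.Run7.h17.Dig.dat_of_deriv hb hB hf hg
    constructor
    · exact Pool.Agent.Run7.h17.Dig.normal_as hm hi D ha hc0 hc hp
    · refine ⟨1 / (Pool.Agent.Run7.h17.Sparse.bb ((1 + 2 * c) / 2) : ℝ), ?_, fun q hq h hh => ?_⟩
      · have := Pool.Agent.Run7.h17.Sparse.bb_pos (τ := (1 + 2 * c) / 2) (by linarith)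
        have h2 : (0 : ℝ) < Pool.Agent.Run7.h17.Sparse.bb ((1 + 2 * c) / 2) := by exact_mod_cast this
        positivity
      · exact Pool.Agent.Run7.h17.Dig.weyl_as hm hi D hq hh ha hc0 hc hp
  · intro b hb x₀ d h0 hd Ω _ μ _ ξ hm hi a c ha hc0 hc hp
    obtain ⟨A, B, G, D⟩ := Pool.Agent.Run7.h17.Dig.dat_sqrt hb h0 hd
    have h1 := Pool.Agent.Run7.h17.Dig.normal_as hm hi D ha hc0 hc hp
    filter_upwards [h1] with ω hω q hq
    have h2 := hω q hq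
    rw [hnum, zero_add] at h2
    exact h2
  · intro b hb x₀ d h0 hd ε hε
    obtain ⟨x, hx1, hx2⟩ := Pool.Agent.Run7.h17.Dig.sqrt_det hb h0 hd hε
    refine ⟨x, hx1, fun q hq => ?_⟩
    have h2 := hx2 q hq
    rw [hnum, zero_add] at h2
    exact h2

end Pool.Agent.Results.MP_0308e6_nt.SparsePerturbations
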