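import Pool.Agent.Run7.h274.SqrtTwoB

/-!
# The binary words of length up to `log N / (2 log 2)` in the multiples of `√2 / 3 ^ j`

Let `l ≥ 1` and `3 ^ j > 4 · 2 ^ l`, for instance the least such power, so that `j ≤ l + 2`. A place `k`
is good if `2 ^ k x`, `x = √2 / 3 ^ j`, has no good approximation with a denominator less than
`4 · 2 ^ l`. At a good place the blocks of length `l` of the multiples `m x`, `m ≤ M`, have the right
frequencies up to a constant factor.

The number of good places is at least a constant times the number `D` of digit changes of `R x` divided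
by `log R`, where `R` is the least common multiple of the numbers up to `4 · 2 ^ l`, `log R ≤ 22 · 2 ^ l`.
As `3 ^ j` does not divide `R`, and `9 ^ j (R x) ^ 2 = 2 R ^ 2`, a window of length `C j` (or `C log R` behind
a digit change) without sums of two places of digit changes is impossible, and `D ^ 2 j ≥ c N` follows
for `N ≥ C (4 ^ l + j)`. All constants are explicit and do not depend on `l`.
-/

set_option autoImplicit false

namespace Pool.Agent.Results.MP_0308e6_nt.WordsInMultiplesOfSqrtTwo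

open Finset

/-- the binary word of length `l` with value `W` (its digits are those of `W < 2 ^ l` in base two, with
leading zeros) stands in the binary expansion of `y` right behind the `k`-th digit after the point,
i.e. the fractional part of `2 ^ k y` lies in `[W / 2 ^ l, (W + 1) / 2 ^ l)` -/
def Stands (l W : ℕ) (y : ℝ) (k : ℕ) : Prop := ⌊(2 : ℝ) ^ (k + l) * y⌋ % (2 : ℤ) ^ l = (W : ℤ)

noncomputable instance (l W : ℕ) (y : ℝ) : DecidablePred (Stands l W y) := fun _ => Int.instDecidableEq _ _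

/-- the number of `k < N` such that the word of length `l` with value `W` stands in the binary
expansion of `y` right behind the `k`-th digit -/
noncomputable def occ (l W : ℕ) (y : ℝ) (N : ℕ) : ℕ := #{k ∈ range N | Stands l W y k}

/-- (1) Let `l ≥ 1`, `3 ^ j > 4 · 2 ^ l`, `N ≥ 20000 (4 ^ l + j)` and `M ≥ 12 · 2 ^ l`. There is a nonempty
set `S` of at least `√(N / j) / (400 · 2 ^ l)` places `k < N` such that for every binary word `W` of
length `l` and all `k ∈ S` the number of `m ≤ M` for which `W` stands in the binary expansion of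
`m √2 / 3 ^ j` right behind the `k`-th digit is between `M / (8 · 2 ^ l)` and `4 M / 2 ^ l`.

(2) In the same situation every word `W` of length `l` occurs at least `√(N / j) / (6400 · 4 ^ l)` times
at the first `N` places of `m √2 / 3 ^ j` for at least `M / (16 · 2 ^ l)` of the `m ≤ M`.

(3) Let `l, n ≥ 1`, `3 ^ j > 4 · 2 ^ (l n)`, `N ≥ 20000 (4 ^ (l n) + j)` and `M ≥ 12 · 2 ^ (l n)`. For all but
at most `8 · 2 ^ l (1 - 2 ^ (-l)) ^ n M` of the `m ≤ M` every word of length `l` occurs at least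
`√(N / j) / (800 l n 2 ^ (l n)) - l n` times at the first `N` places of `m √2 / 3 ^ j`. -/
theorem result :
    (∀ l j N M : ℕ, 1 ≤ l → 4 * 2 ^ l < 3 ^ j → 20000 * (4 ^ l + j) ≤ N → 12 * 2 ^ l ≤ M →
      ∃ S : Finset ℕ, S.Nonempty ∧ S ⊆ range N ∧ √((N : ℝ) / j) ≤ 400 * 2 ^ l * (S.card : ℝ) ∧
        ∀ k ∈ S, ∀ W < 2 ^ l,
          M ≤ 8 * 2 ^ l * ((Icc 1 M).filter (fun m : ℕ => Stands l W (m * (√2 / 3 ^ j)) k)).card ∧
          2 ^ l * ((Icc 1 M).filter (fun m : ℕ => Stands l W (m * (√2 / 3 ^ j)) k)).card ≤ 4 * M) ∧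
    (∀ l j N M : ℕ, 1 ≤ l → 4 * 2 ^ l < 3 ^ j → 20000 * (4 ^ l + j) ≤ N → 12 * 2 ^ l ≤ M →
      ∀ W < 2 ^ l, M ≤ 16 * 2 ^ l * ((Icc 1 M).filter (fun m : ℕ =>
        √((N : ℝ) / j) ≤ 6400 * 4 ^ l * (occ l W (m * (√2 / 3 ^ j)) N : ℝ))).card) ∧
    (∀ l n j N M : ℕ, 1 ≤ l → 1 ≤ n → 4 * 2 ^ (l * n) < 3 ^ j → 20000 * (4 ^ (l * n) + j) ≤ N →
      12 * 2 ^ (l * n) ≤ M →
      (2 ^ l) ^ n * ((Icc 1 M).filter (fun m : ℕ => ∃ W < 2 ^ l,
        800 * (l * n) * 2 ^ (l * n) * ((occ l W (m * (√2 / 3 ^ j)) N : ℝ) + l * n) <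
          √((N : ℝ) / j))).card ≤ 8 * 2 ^ l * (2 ^ l - 1) ^ n * M) := by
  classical
  have hocc : ∀ (l W : ℕ) (y : ℝ) (N : ℕ),
      Pool.Agent.Run7.h274.WM.occ 2 l W y N = occ l W y N := by
    intro l W y N
    unfold Pool.Agent.Run7.h274.WM.occ occ Stands
    simp only [Nat.cast_ofNat]
  refine ⟨fun l j N M hl hj hN hM => ?_, fun l j N M hl hj hN hM W hW => ?_,
    fun l n j N M hl hn hj hN hM => ?_⟩
  · have h1 := Pool.Agent.Run7.h274.WM.sqrt_two_gd hl hj hN hM
    have hM0 : 1 ≤ M := by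
      have : 1 ≤ 2 ^ l := Nat.one_le_two_pow
      omega
    have hj1 : 1 ≤ j := by
      by_contra h
      have : j = 0 := by omega
      rw [this] at hj
      have : 1 ≤ 2 ^ l := Nat.one_le_two_pow
      omega
    have hNpos : 0 < N := by
      have : 1 ≤ 4 ^ l := Nat.one_le_pow _ _ (by norm_num)
      omega
    set S : Finset ℕ :=
      {k ∈ range N | Pool.Agent.Run7.h274.WM.Good 2 (2 ^ l) M (√2 / 3 ^ j) k} with hS
    have hgd : Pool.Agent.Run7.h274.WM.gd 2 (2 ^ l) M (√2 / 3 ^ j) N = S.card := by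
      unfold Pool.Agent.Run7.h274.WM.gd
      rw [hS]
    rw [hgd] at h1
    refine ⟨S, ?_, filter_subset _ _, h1, fun k hk W hW => ?_⟩
    · rw [← card_pos]
      by_contra h0
      have h0' : S.card = 0 := by omega
      rw [h0'] at h1
      have hNR : (0 : ℝ) < N := by exact_mod_cast hNpos
      have hjR : (0 : ℝ) < j := by exact_mod_cast hj1
      have h2 : 0 < √((N : ℝ) / j) := Real.sqrt_pos.2 (by positivity)
      simp only [Nat.cast_zero, mul_zero] at h1
      linarith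
    · have h2 := Pool.Agent.Run7.h274.WM.good_both (b := 2) (by norm_num) hM0 (√2 / 3 ^ j) k
        (mem_filter.1 hk).2 W hW
      simp only [Nat.cast_ofNat] at h2
      exact h2
  · have h1 := Pool.Agent.Run7.h274.WM.sqrt_two_gd hl hj hN hM
    have h2 := Pool.Agent.Run7.h274.WM.core_gd (b := 2) (by norm_num) (l := l) (M := M) (by omega)
      (√2 / 3 ^ j) N W hW
    refine h2.trans (Nat.mul_le_mul_left _ (card_le_card fun m hm => ?_))
    rw [mem_filter] at hm ⊢
    refine ⟨hm.1, ?_⟩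
    rw [hocc] at hm
    have h3 : (Pool.Agent.Run7.h274.WM.gd 2 (2 ^ l) M (√2 / 3 ^ j) N : ℝ) ≤
        16 * 2 ^ l * (occ l W (m * (√2 / 3 ^ j)) N : ℝ) := by exact_mod_cast hm.2
    have e4 : (4 : ℝ) ^ l = 2 ^ l * 2 ^ l := by rw [← mul_pow]; norm_num
    have hp : (0 : ℝ) < 2 ^ l := by positivity
    calc √((N : ℝ) / j) ≤ 400 * 2 ^ l * (Pool.Agent.Run7.h274.WM.gd 2 (2 ^ l) M (√2 / 3 ^ j) N : ℝ) := h1
      _ ≤ 400 * 2 ^ l * (16 * 2 ^ l * (occ l W (m * (√2 / 3 ^ j)) N : ℝ)) :=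
          mul_le_mul_of_nonneg_left h3 (by positivity)
      _ = 6400 * 4 ^ l * (occ l W (m * (√2 / 3 ^ j)) N : ℝ) := by rw [e4]; ring
  · have hln : 1 ≤ l * n := Nat.mul_pos hl hn
    have h1 := Pool.Agent.Run7.h274.WM.sqrt_two_gd hln hj hN hM
    have hM0 : 1 ≤ M := by
      have : 1 ≤ 2 ^ (l * n) := Nat.one_le_two_pow
      omega
    have h2 := Pool.Agent.Run7.h274.WM.almost_all (b := 2) (by norm_num) hl hM0 (n := n)
      (√2 / 3 ^ j) N
    refine le_trans (Nat.mul_le_mul_left _ (card_le_card fun m hm => ?_)) h2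
    rw [mem_filter] at hm ⊢
    obtain ⟨hm1, W, hW, hlt⟩ := hm
    refine ⟨hm1, W, hW, ?_⟩
    rw [hocc]
    have h3 := lt_of_lt_of_le hlt h1
    have hp : (0 : ℝ) < 2 ^ (l * n) := by positivity
    have h4 : (2 * (((l * n : ℕ)) : ℝ) * ((occ l W (m * (√2 / 3 ^ j)) N : ℝ) + ((l * n : ℕ) : ℝ))) <
        (Pool.Agent.Run7.h274.WM.gd 2 (2 ^ (l * n)) M (√2 / 3 ^ j) N : ℝ) := by
      push_cast
      have h5 : 800 * ((l : ℝ) * n) * 2 ^ (l * n) * ((occ l W (m * (√2 / 3 ^ j)) N : ℝ) + l * n) =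
          400 * 2 ^ (l * n) * (2 * ((l : ℝ) * n) * ((occ l W (m * (√2 / 3 ^ j)) N : ℝ) + l * n)) := by
        ring
      rw [h5] at h3
      exact lt_of_mul_lt_mul_left h3 (by positivity)
    exact_mod_cast h4

end Pool.Agent.Results.MP_0308e6_nt.WordsInMultiplesOfSqrtTwo
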